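import Pool.Agent.Y394.EQ.Main

/-!
There is an equistable graph which is not weakly CIS.
-/

set_option autoImplicit false

namespace Pool.Agent.Results.MP_59918e_co.EquistableNotWeaklyCIS

open Pool.Agent.Y394.EQ

/-- There is a finite simple graph which is equistable but not weakly CIS. -/
theorem result : ∃ G : SimpleGraph (Fin 14), Equistable G ∧ ¬ WeaklyCIS G :=
  ⟨Gr, equistable, not_weaklyCIS⟩

end Pool.Agent.Results.MP_59918e_co.EquistableNotWeaklyCIS
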